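import Pool.Agent.Helper74.BS.St

/-!
# Project BS (MP_26f0da_lc), module FI: first acceptance.
-/

set_option autoImplicit false

namespace Pool.Agent.Helper4.BS

open Pool.Agent.Helper73.DC Pool.Agent.Helper74.BS

private theorem cn_nil (K j : ℕ) : cn K j Fo.nil = 0 := by
  cases j <;> rfl

private theorem nil_le (f : Fo) (K j : ℕ) : cn K j Fo.nil ≤ cn K j f := by
  rw [cn_nil]
  exact Nat.zero_le _

private theorem popsF (hFO : Pool.Agent.Helper74.BS.StFO) {C G : Type}
    (mv : C → G → C → List G → Prop) (F : C → Prop) (c : C) (β : List G) (c' : C) (f : Fo)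
    (h : Pops mv c β c' f) :
    PopsF mv F c β c' f ∨ ∃ f1, AccsF mv F c β f1 ∧ ∀ K j, cn K j f1 ≤ cn K j f := by
  induction h with
  | nil c =>
    by_cases hF : F c
    · exact Or.inr ⟨Fo.nil, AccsF.fin c [] hF, fun K j => le_rfl⟩
    · exact Or.inl (PopsF.nil c hF)
  | cons c c1 c2 c3 Z γ β f g hmv h1 h2 ih1 ih2 =>
    by_cases hF : F c
    · exact Or.inr ⟨Fo.nil, AccsF.fin c _ hF, nil_le _⟩
    · rcases ih1 with p1 | ⟨f1, hf1, hle⟩
      · rcases ih2 with p2 | ⟨g1, hg1, hle⟩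
        · exact Or.inl (PopsF.cons c c1 c2 c3 Z γ β f g hF hmv p1 p2)
        · exact Or.inr ⟨Fo.nd f g1, AccsF.next c c1 c2 Z γ β f g1 hF hmv p1 hg1,
            hFO.2.1 f g1 f g (fun K j => le_rfl) hle⟩
      · exact Or.inr ⟨Fo.nd f1 Fo.nil, AccsF.down c c1 Z γ β f1 hF hmv hf1,
          hFO.2.1 f1 Fo.nil f g hle (nil_le g)⟩

private theorem accsF (hFO : Pool.Agent.Helper74.BS.StFO) {C G : Type}
    (mv : C → G → C → List G → Prop) (F : C → Prop) (c : C) (β : List G) (f : Fo)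
    (h : Accs mv F c β f) : ∃ f1, AccsF mv F c β f1 ∧ ∀ K j, cn K j f1 ≤ cn K j f := by
  induction h with
  | fin c β hF => exact ⟨Fo.nil, AccsF.fin c β hF, fun K j => le_rfl⟩
  | down c c1 Z γ β f hmv h1 ih =>
    by_cases hF : F c
    · exact ⟨Fo.nil, AccsF.fin c _ hF, nil_le _⟩
    · obtain ⟨f1, hf1, hle⟩ := ih
      exact ⟨Fo.nd f1 Fo.nil, AccsF.down c c1 Z γ β f1 hF hmv hf1,
        hFO.2.1 f1 Fo.nil f Fo.nil hle (nil_le _)⟩
  | next c c1 c2 Z γ β f g hmv h1 h2 ih =>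
    by_cases hF : F c
    · exact ⟨Fo.nil, AccsF.fin c _ hF, nil_le _⟩
    · rcases popsF hFO mv F c1 γ c2 f h1 with p1 | ⟨f1, hf1, hle⟩
      · obtain ⟨g1, hg1, hle⟩ := ih
        exact ⟨Fo.nd f g1, AccsF.next c c1 c2 Z γ β f g1 hF hmv p1 hg1,
          hFO.2.1 f g1 f g (fun K j => le_rfl) hle⟩
      · exact ⟨Fo.nd f1 Fo.nil, AccsF.down c c1 Z γ β f1 hF hmv hf1,
          hFO.2.1 f1 Fo.nil f g hle (nil_le g)⟩

private theorem popsF_pops {C G : Type}
    (mv : C → G → C → List G → Prop) (F : C → Prop) (c : C) (β : List G) (c' : C) (f : Fo)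
    (h : PopsF mv F c β c' f) : Pops mv c β c' f := by
  induction h with
  | nil c _ => exact Pops.nil c
  | cons c c1 c2 c3 Z γ β f g _ hmv _ _ ih1 ih2 => exact Pops.cons c c1 c2 c3 Z γ β f g hmv ih1 ih2

theorem hFI (hFO : Pool.Agent.Helper74.BS.StFO) : Pool.Agent.Helper74.BS.StFI := by
  intro C G mv F
  refine ⟨fun c β f h => accsF hFO mv F c β f h, ?_, fun c β c' f h => popsF_pops mv F c β c' f h,
    ?_, ?_⟩
  · intro c β f h
    induction h with
    | fin c β hF => exact Accs.fin c β hF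
    | down c c1 Z γ β f _ hmv _ ih => exact Accs.down c c1 Z γ β f hmv ih
    | next c c1 c2 Z γ β f g _ hmv h1 _ ih =>
      exact Accs.next c c1 c2 Z γ β f g hmv (popsF_pops mv F _ _ _ _ h1) ih
  · intro c β f h
    induction h with
    | fin c β hF => exact Nat.zero_le _
    | down c c1 Z γ β f _ hmv _ ih =>
      simp only [wd, List.length_cons]
      omega
    | next c c1 c2 Z γ β f g _ hmv h1 _ ih =>
      simp only [wd, List.length_cons]
      omega
  · intro c β c' f h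
    induction h with
    | nil c hF => exact ⟨Nat.zero_le _, hF, hF⟩
    | cons c c1 c2 c3 Z γ β f g hF hmv _ _ ih1 ih2 =>
      refine ⟨?_, hF, ih2.2.2⟩
      simp only [wd, List.length_cons]
      have := ih2.1
      omega

end Pool.Agent.Helper4.BS
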