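import Pool.Agent.Helper9.BS.St

/-!
# Project BS, module POF: positivity in finsupp form
-/

set_option autoImplicit false

open scoped NNReal

noncomputable section

namespace Pool.Agent.Helper4.BS

open Pool.Agent.Helper9.BS

variable {H : Type} [NormedAddCommGroup H] [InnerProductSpace ℂ H]

/-- the operator as a linear map -/
def linT (T : CSG H) (t : ℝ≥0) : H →ₗ[ℂ] H where
  toFun := T.T t
  map_add' := T.map_add t
  map_smul' := T.map_smul t

theorem T_sum (T : CSG H) (t : ℝ≥0) {ι : Type} (s : Finset ι) (c : ι → ℂ) (u : ι → H) :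
    T.T t (∑ i ∈ s, c i • u i) = ∑ i ∈ s, c i • T.T t (u i) := by
  have h : linT T t (∑ i ∈ s, c i • u i) = ∑ i ∈ s, c i • linT T t (u i) := by
    rw [map_sum]
    exact Finset.sum_congr rfl fun i _ => by rw [map_smul]
  exact h

theorem hPOF : StPOF := by
  intro hPOS H _ _ T N u f
  classical
  set S : Finset ℝ≥0 := f.support.image Prod.fst with hS
  set h : ℝ≥0 → H := fun s => ∑ i : Fin N, f (s, i) • u i with hh
  have key := hPOS H T S h
  have hsub : f.support ⊆ S ×ˢ (Finset.univ : Finset (Fin N)) := by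
    intro x hx
    rw [Finset.mem_product]
    exact ⟨Finset.mem_image_of_mem _ hx, Finset.mem_univ _⟩
  have e1 : (f.sum fun x a => f.sum fun y b => (starRingEnd ℂ) a * b *
      inner ℂ (T.T (x.1 - y.1) (u x.2)) (T.T (y.1 - x.1) (u y.2))) =
      ∑ s ∈ S, ∑ t ∈ S, inner ℂ (T.T (s - t) (h s)) (T.T (t - s) (h t)) := by
    rw [Finsupp.sum_of_support_subset f hsub _ (by intro i _; simp)]
    rw [Finset.sum_product]
    refine Finset.sum_congr rfl fun s _ => ?_
    have e2 : ∀ i : Fin N, (f.sum fun y b => (starRingEnd ℂ) (f (s, i)) * b *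
        inner ℂ (T.T ((s, i).1 - y.1) (u (s, i).2)) (T.T (y.1 - (s, i).1) (u y.2))) =
        ∑ t ∈ S, ∑ j : Fin N, (starRingEnd ℂ) (f (s, i)) * f (t, j) *
          inner ℂ (T.T (s - t) (u i)) (T.T (t - s) (u j)) := by
      intro i
      rw [Finsupp.sum_of_support_subset f hsub _ (by intro i _; simp)]
      rw [Finset.sum_product]
    rw [Finset.sum_congr rfl fun i _ => e2 i]
    rw [Finset.sum_comm]
    refine Finset.sum_congr rfl fun t _ => ?_
    rw [hh]
    simp only
    rw [T_sum, T_sum, sum_inner]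
    refine Finset.sum_congr rfl fun i _ => ?_
    rw [inner_sum]
    refine Finset.sum_congr rfl fun j _ => ?_
    rw [inner_smul_left, inner_smul_right]
    ring
  rw [e1]
  exact key

end Pool.Agent.Helper4.BS
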